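import Pool.Agent.K4H5.PT.Order

/-!
The Euler product over a covering of `p`-power degree with ramification at arbitrary places (after
Pool.Agent.Y709.Lay.GlobB).
-/

set_option autoImplicit false
set_option linter.unusedSectionVars false

open Polynomial Module

namespace Pool.Agent.K4H5.PT

open Pool.Agent.W313.Hyp Pool.Agent.W343.BSD Pool.Agent.Y709 Pool.Agent.Y709.Gen
  Pool.Agent.Y709.Lay

section above

variable {k : Type} [Field k] [Finite k] {O : Type} [CommRing O] [Algebra k[X] O]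
  (G : Type) [Group G] [Finite G] [MulSemiringAction G O] [IsGaloisGroup G k[X] O]

/-- the degrees of the points above a point -/
theorem sum_inertiaDeg_le [FaithfulSMul k[X] O] (P : MI k) :
    ∑ 𝔪 ∈ (above_finite (O := O) G P).toFinset, 𝔪.asIdeal.inertiaDeg k[X] ≤ Nat.card G := by
  obtain ⟨𝔪₀, h₀⟩ := above_nonempty (O := O) G P
  have hn : 0 < (above k P : Set (MaximalSpectrum O)).ncard :=
    (Set.ncard_pos (above_finite (O := O) G P)).2 ⟨𝔪₀, h₀⟩
  have h1 : ∀ 𝔪 ∈ (above_finite (O := O) G P).toFinset, 𝔪.asIdeal.inertiaDeg k[X] ≤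
      Nat.card G / (above k P : Set (MaximalSpectrum O)).ncard := by
    intro 𝔪 h
    rw [Set.Finite.mem_toFinset] at h
    have h2 := inertia_mul G h
    have h3 : 0 < Nat.card (𝔪.asIdeal.inertia G) := Nat.card_pos
    rw [Nat.le_div_iff_mul_le hn, ← h2]
    calc 𝔪.asIdeal.inertiaDeg k[X] * (above k P : Set (MaximalSpectrum O)).ncard ≤
        𝔪.asIdeal.inertiaDeg k[X] * (above k P : Set (MaximalSpectrum O)).ncard *
          Nat.card (𝔪.asIdeal.inertia G) := Nat.le_mul_of_pos_right _ h3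
      _ = _ := by ring
  refine (Finset.sum_le_sum h1).trans ?_
  rw [Finset.sum_const, smul_eq_mul, ← Set.ncard_eq_toFinset_card _ (above_finite (O := O) G P)]
  exact Nat.mul_div_le _ _

end above

section mat

variable {κ : Type} [Fintype κ] [DecidableEq κ]

theorem eval_charpolyRev_pow {p : ℕ} [hp : Fact p.Prime] {K : Type} [Field K] [CharP K p]
    (A : Matrix κ κ K) {f : ℕ} (hf : ∃ a, f = p ^ a) (h : A.charpolyRev.eval 1 = 0) :
    (A ^ f).charpolyRev.eval 1 = 0 := by
  obtain ⟨a, rfl⟩ := hf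
  have h1 := congrArg (fun g : K[X] => g.eval 1) (expand_charpolyRev_pow (p := p) A a)
  simp only [expand_eval, one_pow, eval_pow] at h1
  rw [h1, h, zero_pow (pow_ne_zero _ hp.out.ne_zero)]

end mat

section glob

variable {k₀ k R K : Type} [Field k₀] [Fintype k₀] [Field k] [Fintype k] [Algebra k₀ k]
  [CommRing R] [IsDomain R] [CharZero R] [Field K] [Algebra k K] [IsAlgClosed K]
  [Algebra.IsAlgebraic k K] (π : R →+* K)
  (hu : ∀ r : R, π r ≠ 0 → IsUnit r) (χ : MulChar k₀ R)
  (hχ : ∀ u : k₀, π (χ u) = algebraMap k K (algebraMap k₀ k u))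
  {κ : Type} [Fintype κ] [DecidableEq κ]
  {O : Type} [CommRing O] [Algebra k[X] O] (G : Type) [Group G] [Finite G]
  [MulSemiringAction G O] [IsGaloisGroup G k[X] O] [FaithfulSMul k[X] O]

/-- the matrix of the fibre at a point -/
noncomputable def fibMat (k₀ : Type) [Field k₀] {k : Type} [Field k] [Algebra k₀ k] (q s : ℕ)
    (E : k[X]) (b : κ → k[X]) (m : κ → ℕ) (o : κ) {O : Type} [CommRing O] [Algebra k[X] O]
    (𝔪 : MaximalSpectrum O) : Matrix κ κ (RO k 𝔪) :=
  mprod (fun j => ((vO k 𝔪 E) ^ (q ^ j)) • phi k₀ (cjb q (fun i => vO k 𝔪 (b i)) j) m o)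
    (finrank k (RO k 𝔪) * s)

include hu hχ in
/-- the functional equation over the covering and its reduction -/
theorem global_feR {p f₀ q s n d g : ℕ} [hp : Fact p.Prime] [CharP k p] (hq : q = p ^ f₀)
    (hf₀ : 0 < f₀) (hk₀ : Fintype.card k₀ = q) (hs : 0 < s) (hk : Fintype.card k = q ^ s)
    (h5 : 5 ≤ q) (hG : Nat.card G = p ^ g) (E : k[X]) (b : κ → k[X])
    (hb : ∀ i, (b i).natDegree ≤ d) {m : κ → ℕ} (hm : ∀ i, 0 < m i)
    (hmq : ∑ i, m i < q - 1) (hinv : ∀ i : ℕ, i < ∑ l, m l → ((i : k₀) + 1) ≠ 0) (o : κ)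
    (hn : E.natDegree + d * ∑ i, m i < (q - 1) * (n + 1)) (B : k[X]) (hB : B ≠ 0)
    (hun : ∀ 𝔪 : MaximalSpectrum O, vO k 𝔪 B ≠ 0 → 𝔪.asIdeal.inertia G = ⊥) :
    ∃ (L : PowerSeries R) (Δ : K[X]),
      LO O χ E b m * PowerSeries.rescale ((q : R) ^ s) L = 1 ∧
      PowerSeries.map π L * (Δ : PowerSeries K) = 1 ∧
      (Δ.eval 1 = 0 →
        (mprod (fun j => kmat q n (tw K p f₀ (MG E b m o) j)) s).charpolyRev.eval 1 = 0 ∨
        ∃ 𝔪 : MaximalSpectrum O, vO k 𝔪 B = 0 ∧ vO k 𝔪 E ≠ 0 ∧ 𝔪.asIdeal.inertia G ≠ ⊥ ∧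
          (fibMat k₀ q s E b m o 𝔪).charpolyRev.eval 1 = 0) := by
  classical
  have hfin := fun n => points_finite (k := k) (O := O) G n
  have hfink := fun n => finite_deg_le (F := k) n
  have hroot := fun P : MI k => exists_root_MI (K := K) P
  choose ρ hρ using hroot
  have hfd : ∀ 𝔪 : MaximalSpectrum O, FiniteDimensional k (RO k 𝔪) := fun 𝔪 => finiteDim_RO G 𝔪
  have hpK : CharP K p := charP_of_injective_algebraMap (algebraMap k K).injective p
  -- the local factors
  have hloc : ∀ 𝔪 : MaximalSpectrum O, ∃ Q : R[X], Q.coeff 0 = 1 ∧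
      fibG R χ (fibp (vO k 𝔪 E) (fun i => vO k 𝔪 (b i)) m) *
        PowerSeries.rescale (((q : R) ^ s) ^ (finrank k (RO k 𝔪))) (Q : PowerSeries R) = 1 ∧
      PowerSeries.expand (finrank k (RO k 𝔪)) (finrank_ne' G 𝔪) ((Q.map π : K[X]) : PowerSeries K) =
        (locFS (MonoidHom.id K) q s (tw K p f₀ (MG E b m o)) (ρ (pt (k := k) 𝔪))
          (pt (k := k) 𝔪).1.natDegree (deg_ne _)) ^ (𝔪.asIdeal.inertiaDeg k[X]) := by
    intro 𝔪
    have hfi : Finite (RO k 𝔪) := finite_RO (k := k) G 𝔪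
    have hFt : Fintype (RO k 𝔪) := Fintype.ofFinite _
    have hfin0 : Finite k₀ := inferInstance
    have hmf : Module.Finite k₀ (RO k 𝔪) := Module.Finite.of_finite
    set P := pt (k := k) 𝔪 with hP
    set f := 𝔪.asIdeal.inertiaDeg k[X] with hf
    have hfr : finrank k (RO k 𝔪) = P.1.natDegree * f := finrank_RO (k := k) G 𝔪
    have hfpos : 0 < f := inertiaDeg_pos (k := k) G
    have hFc : Fintype.card (RO k 𝔪) = q ^ (f * (P.1.natDegree * s)) := by
      have h1 := Module.card_eq_pow_finrank (K := k) (V := RO k 𝔪)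
      rw [h1, hk, hfr, ← pow_mul]
      congr 1
      ring
    have hFp : CharP (RO k 𝔪) p :=
      charP_of_injective_algebraMap (algebraMap k (RO k 𝔪)).injective p
    obtain ⟨σ, hσ⟩ := exists_emb (k := k) (𝔪 := 𝔪) (P := P) rfl (hρ P)
    obtain ⟨Q, h0, h1, h2⟩ := fibre_feG π (σ : RO k 𝔪 →+* K) χ (fun u => by
        rw [hχ]
        exact (σ.commutes (algebraMap k₀ k u)).symm) hu hq hf₀ hk₀ h5
      (Nat.mul_pos hfpos (Nat.mul_pos (MI.deg_pos P) hs)) hFc hm hmq hinv (vO k 𝔪 E)
      (fun i => vO k 𝔪 (b i)) o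
    refine ⟨Q, h0, ?_, ?_⟩
    · have h3 : ((q : R) ^ s) ^ (finrank k (RO k 𝔪)) = (q : R) ^ (f * (P.1.natDegree * s)) := by
        rw [← pow_mul, hfr]
        congr 1
        ring
      rw [h3]
      exact h1
    · rw [h2, locFS_MG hq hk E b m o P (hρ P) σ hσ f]
      exact expand_pow_charpolyRev (p := p) _ (deg_ne P) (finrank_ne' G 𝔪)
        (inertiaDeg_pow (k := k) G hp.out hG 𝔪) hfr
  choose Q hQ0 hQ1 hQ2 using hloc
  have hQc : ∀ 𝔪, PowerSeries.constantCoeff (Q 𝔪 : PowerSeries R) = 1 := by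
    intro 𝔪
    rw [← PowerSeries.coeff_zero_eq_constantCoeff_apply, Polynomial.coeff_coe, hQ0]
  -- the reduced local factors below
  set φ : MI k → PowerSeries K := fun P => locFS (MonoidHom.id K) q s (tw K p f₀ (MG E b m o))
    (ρ P) P.1.natDegree (deg_ne P) with hφ
  set δ : MI k → K[X] := fun P => Polynomial.expand K P.1.natDegree
    (locS (MonoidHom.id K) q (tw K p f₀ (MG E b m o)) (ρ P) (P.1.natDegree * s)).charpolyRev with hδ
  have hφδ : ∀ P, φ P = (δ P : PowerSeries K) := by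
    intro P
    rw [hφ, hδ]
    show locFS _ _ _ _ _ _ _ = _
    unfold locFS
    rw [coe_expand _ (deg_ne P)]
  set N : MI k → ℕ := fun P => ∑ 𝔪 ∈ (above_finite (O := O) G P).toFinset,
    𝔪.asIdeal.inertiaDeg k[X] with hN
  have hNle : ∀ P, N P ≤ Nat.card G := fun P => sum_inertiaDeg_le (O := O) G P
  set S : Finset (MI k) := (hfink B.natDegree).toFinset.filter (fun P => P.1 ∣ B) with hS
  have hSmem : ∀ P : MI k, P ∈ S ↔ P.1 ∣ B := by
    intro P
    rw [hS, Finset.mem_filter, Set.Finite.mem_toFinset]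
    constructor
    · exact fun h => h.2
    · exact fun h => ⟨natDegree_le_of_dvd h hB, h⟩
  have hNS : ∀ P, P ∉ S → N P = Nat.card G := by
    intro P hP
    refine sum_inertiaDeg (O := O) G P ?_
    intro 𝔪 h
    apply hun
    intro h0
    rw [vO_zero_iff] at h0
    have e1 : (pt (k := k) 𝔪).1 = P.1 := h
    rw [e1] at h0
    exact hP ((hSmem P).2 h0)
  set Δ₀ := (mprod (fun j => kmat q n (tw K p f₀ (MG E b m o) j)) s).charpolyRev with hΔ₀
  refine ⟨eulerProd (fun 𝔪 : MaximalSpectrum O => finrank k (RO k 𝔪))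
    (fun 𝔪 => PowerSeries.expand (finrank k (RO k 𝔪)) (finrank_ne' G 𝔪)
      (Q 𝔪 : PowerSeries R)), (∏ P ∈ S, δ P ^ (Nat.card G - N P)) * Δ₀ ^ (Nat.card G), ?_, ?_, ?_⟩
  · rw [rescale_euler hfin, LO_eq G, ← eulerProd_mul hfin]
    · have h1 : (fun 𝔪 : MaximalSpectrum O => PowerSeries.expand (finrank k (RO k 𝔪))
          (finrank_ne' G 𝔪) (fibG R χ (fibp (vO k 𝔪 E) (fun i => vO k 𝔪 (b i)) m)) *
            PowerSeries.rescale ((q : R) ^ s) (PowerSeries.expand (finrank k (RO k 𝔪))
              (finrank_ne' G 𝔪) (Q 𝔪 : PowerSeries R))) = fun _ => 1 := by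
        funext 𝔪
        rw [rescale_expand, ← map_mul, hQ1, map_one]
      rw [h1]
      exact eulerProd_one
    · intro 𝔪
      apply expand_mod
      have h1 := congrArg PowerSeries.constantCoeff (hQ1 𝔪)
      rw [map_mul, map_one] at h1
      have h2 : PowerSeries.constantCoeff (PowerSeries.rescale (((q : R) ^ s) ^
          (finrank k (RO k 𝔪))) (Q 𝔪 : PowerSeries R)) = 1 := by
        rw [← PowerSeries.coeff_zero_eq_constantCoeff_apply, PowerSeries.coeff_rescale, pow_zero,
          one_mul, PowerSeries.coeff_zero_eq_constantCoeff_apply, hQc]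
      rwa [h2, mul_one] at h1
    · intro 𝔪
      rw [rescale_expand]
      apply expand_mod
      rw [← PowerSeries.coeff_zero_eq_constantCoeff_apply, PowerSeries.coeff_rescale, pow_zero,
          one_mul, PowerSeries.coeff_zero_eq_constantCoeff_apply, hQc]
  · rw [map_eulerProd hfin]
    have hφ1 : ∀ P : MI k, (PowerSeries.X : PowerSeries K) ^ P.1.natDegree ∣ φ P - 1 :=
      fun P => locFS_mod _ _ _ _ _ _ _
    have hpow : ∀ (P : MI k) (n : ℕ), (PowerSeries.X : PowerSeries K) ^ P.1.natDegree ∣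
        φ P ^ n - 1 := by
      intro P n
      induction n with
      | zero => rw [pow_zero, sub_self]; exact dvd_zero _
      | succ n ih =>
        rw [pow_succ]
        exact one_mod_mul ih (hφ1 P)
    have h1 : (fun 𝔪 : MaximalSpectrum O => PowerSeries.map π (PowerSeries.expand
        (finrank k (RO k 𝔪)) (finrank_ne' G 𝔪) (Q 𝔪 : PowerSeries R))) =
        fun 𝔪 => φ (pt (k := k) 𝔪) ^ (𝔪.asIdeal.inertiaDeg k[X]) := by
      funext 𝔪
      rw [PowerSeries.map_expand, ← Polynomial.polynomial_map_coe, hQ2]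
    have hmod : ∀ 𝔪 : MaximalSpectrum O, (PowerSeries.X : PowerSeries K) ^
        (finrank k (RO k 𝔪)) ∣ φ (pt (k := k) 𝔪) ^ (𝔪.asIdeal.inertiaDeg k[X]) - 1 := by
      intro 𝔪
      have h2 := congrFun h1 𝔪
      rw [← h2, PowerSeries.map_expand]
      apply expand_mod
      rw [← Polynomial.polynomial_map_coe, ← PowerSeries.coeff_zero_eq_constantCoeff_apply,
        Polynomial.coeff_coe, Polynomial.coeff_map, hQ0, map_one]
    have h3 : eulerProd (fun P : MI k => P.1.natDegree) (fun P => ∏ 𝔪 ∈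
        (above_finite (O := O) G P).toFinset,
          φ (pt (k := k) 𝔪) ^ (𝔪.asIdeal.inertiaDeg k[X])) =
        eulerProd (fun 𝔪 : MaximalSpectrum O => finrank k (RO k 𝔪))
          (fun 𝔪 => φ (pt (k := k) 𝔪) ^ (𝔪.asIdeal.inertiaDeg k[X])) := by
      refine eulerProd_fiber hfink hfin hmod
        (fun P => (above_finite (O := O) G P).toFinset) ?_ ?_ ?_
      · intro 𝔪
        refine ⟨pt (k := k) 𝔪, ?_⟩
        rw [Set.Finite.mem_toFinset]
        rfl
      · intro P P' 𝔪 h h'
        rw [Set.Finite.mem_toFinset] at h h'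
        have e1 : minpoly k (vO k 𝔪 X) = P.1 := h
        have e2 : minpoly k (vO k 𝔪 X) = P'.1 := h'
        exact Subtype.ext (e1.symm.trans e2)
      · intro P 𝔪 h
        rw [Set.Finite.mem_toFinset] at h
        have e1 : (pt (k := k) 𝔪).1 = P.1 := h
        show P.1.natDegree ≤ _
        rw [finrank_RO (k := k) G 𝔪, e1]
        exact Nat.le_mul_of_pos_right _ (inertiaDeg_pos (k := k) G)
    have h4 : (fun P : MI k => ∏ 𝔪 ∈ (above_finite (O := O) G P).toFinset,
          φ (pt (k := k) 𝔪) ^ (𝔪.asIdeal.inertiaDeg k[X])) = fun P => φ P ^ (N P) := by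
      funext P
      have e0 : ∀ 𝔪 ∈ (above_finite (O := O) G P).toFinset,
          φ (pt (k := k) 𝔪) ^ (𝔪.asIdeal.inertiaDeg k[X]) =
            φ P ^ (𝔪.asIdeal.inertiaDeg k[X]) := by
        intro 𝔪 h
        rw [Set.Finite.mem_toFinset] at h
        have e1 : pt (k := k) 𝔪 = P := Subtype.ext h
        rw [e1]
      rw [Finset.prod_congr rfl e0, Finset.prod_pow_eq_pow_sum]
    have h5' : eulerProd (fun P : MI k => P.1.natDegree) (fun P => φ P ^ (Nat.card G)) =
        (eulerProd (fun P : MI k => P.1.natDegree) φ) ^ (Nat.card G) := by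
      have e1 := eulerProd_prod hfink (Finset.range (Nat.card G)) (fun _ P => φ P)
        (fun _ P => hφ1 P)
      simp only [Finset.prod_const, Finset.card_range] at e1
      exact e1
    have h6 := formula_modS (k := k) (K := K) (m := n) hs (by omega)
      (by rw [Nat.card_eq_fintype_card, hk]) (tw K p f₀ (MG E b m o)) (tw_per hq hk _)
      (fun j x y => (tw_deg (MG E b m o) j x y).trans_lt
        ((natDegree_MG E hb hm o x y).trans_lt hn)) ρ hρ
    have h7 : eulerProd (fun P : MI k => P.1.natDegree) (fun P => φ P ^ (Nat.card G - N P)) =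
        ∏ P ∈ S, φ P ^ (Nat.card G - N P) := by
      refine eulerProd_of_finset hfink (fun P => hpow P _) S ?_
      intro P hP
      rw [hNS P hP, Nat.sub_self, pow_zero]
    have h8 : eulerProd (fun P : MI k => P.1.natDegree) (fun P => φ P ^ (N P)) *
        eulerProd (fun P : MI k => P.1.natDegree) (fun P => φ P ^ (Nat.card G - N P)) =
        (eulerProd (fun P : MI k => P.1.natDegree) φ) ^ (Nat.card G) := by
      rw [← h5', ← eulerProd_mul hfink (fun P => hpow P _) (fun P => hpow P _)]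
      congr 1
      funext P
      rw [← pow_add, Nat.add_sub_cancel' (hNle P)]
    have h9 : ((∏ P ∈ S, δ P ^ (Nat.card G - N P) : K[X]) : PowerSeries K) =
        ∏ P ∈ S, φ P ^ (Nat.card G - N P) := by
      rw [← Polynomial.coeToPowerSeries.ringHom_apply, map_prod]
      refine Finset.prod_congr rfl fun P _ => ?_
      rw [map_pow, Polynomial.coeToPowerSeries.ringHom_apply, hφδ]
    rw [h1, ← h3, h4, Polynomial.coe_mul, Polynomial.coe_pow, h9, ← h7, ← mul_assoc, h8, ← mul_pow,
      hΔ₀, h6, one_pow]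
  · intro h0
    rw [eval_mul, mul_eq_zero] at h0
    rcases h0 with h0 | h0
    · right
      rw [eval_prod, Finset.prod_eq_zero_iff] at h0
      obtain ⟨P, hPS, h1⟩ := h0
      rw [eval_pow] at h1
      have hlt : Nat.card G - N P ≠ 0 := by
        intro h
        rw [h, pow_zero] at h1
        exact one_ne_zero h1
      have h2 := eq_zero_of_pow_eq_zero h1
      have h2' : (locS (MonoidHom.id K) q (tw K p f₀ (MG E b m o)) (ρ P)
          (P.1.natDegree * s)).charpolyRev.eval 1 = 0 := by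
        have : (δ P).eval 1 = _ := expand_eval _ _ _
        rw [this, one_pow] at h2
        exact h2
      have hPE : ¬ P.1 ∣ E := by
        intro hE
        have e1 : φ P = 1 := locFS_of_dvd hq hs E b m o P (hρ P) hE
        rw [hφδ] at e1
        have e2 : δ P = 1 := by
          apply Polynomial.coe_injective
          rw [e1, Polynomial.coe_one]
        rw [e2, eval_one] at h2
        exact one_ne_zero h2
      -- a point with inertia
      obtain ⟨𝔪, h𝔪, hI⟩ : ∃ 𝔪 : MaximalSpectrum O, 𝔪 ∈ above k P ∧ 𝔪.asIdeal.inertia G ≠ ⊥ := by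
        by_contra hcon
        push Not at hcon
        apply hlt
        have e1 := sum_inertiaDeg (O := O) G P hcon
        have e2 : N P = Nat.card G := e1
        omega
      have hpt : pt (k := k) 𝔪 = P := Subtype.ext h𝔪
      refine ⟨𝔪, ?_, ?_, hI, ?_⟩
      · rw [vO_zero_iff, hpt]
        exact (hSmem P).1 hPS
      · intro h
        rw [vO_zero_iff, hpt] at h
        exact hPE h
      · obtain ⟨σ, hσ⟩ := exists_emb (k := k) (𝔪 := 𝔪) (P := P) h𝔪 (hρ P)
        have hfr : finrank k (RO k 𝔪) = P.1.natDegree * 𝔪.asIdeal.inertiaDeg k[X] := by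
          rw [finrank_RO (k := k) G 𝔪, hpt]
        have h3 := locFS_MG (k₀ := k₀) hq hk E b m o P (hρ P) σ hσ (𝔪.asIdeal.inertiaDeg k[X])
        have h4 := eval_charpolyRev_pow (p := p) _ (inertiaDeg_pow (k := k) G hp.out hG 𝔪) h2'
        rw [← h3] at h4
        have h5 := eval_map_apply (σ : RO k 𝔪 →+* K) (1 : RO k 𝔪)
          (p := (mprod (fun j => ((vO k 𝔪 E) ^ (q ^ j)) • phi k₀ (cjb q
            (fun i => vO k 𝔪 (b i)) j) m o)
            (𝔪.asIdeal.inertiaDeg k[X] * (P.1.natDegree * s))).charpolyRev)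
        rw [map_one, h4] at h5
        have h6 := (map_eq_zero (σ : RO k 𝔪 →+* K)).1 h5.symm
        unfold fibMat
        rw [hfr, mul_comm P.1.natDegree, mul_assoc]
        exact h6
    · left
      rw [eval_pow] at h0
      exact eq_zero_of_pow_eq_zero h0

end glob

end Pool.Agent.K4H5.PT
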