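import Pool.Agent.K4H5.PT.Ram

/-!
No zero at `s = 1` over the coverings of `p`-power degree without anomalous ramified places.
-/

set_option autoImplicit false
set_option linter.unusedSectionVars false

open Polynomial Module

namespace Pool.Agent.K4H5.PT

open Pool.Agent.W313.Hyp Pool.Agent.W343.BSD Pool.Agent.Y709 Pool.Agent.Y709.Gen
  Pool.Agent.Y709.Lay

/-- the matrix of the fibre at a point, over the residue field -/
noncomputable def fibRes {k : Type} [Field k] {κ : Type} [Fintype κ] [DecidableEq κ] (q s : ℕ)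
    (E : k[X]) (b : κ → k[X]) (m : κ → ℕ) (o : κ) {O : Type} [CommRing O] [Algebra k[X] O]
    (𝔪 : MaximalSpectrum O) : Matrix κ κ (RO k 𝔪) :=
  mprod (fun j => ((vO k 𝔪 E) ^ (q ^ j)) • phi (RO k 𝔪) (cjb q (fun i => vO k 𝔪 (b i)) j) m o)
    (finrank k (RO k 𝔪) * s)

theorem fibMat_eq {k₀ k : Type} [Field k₀] [Field k] [Algebra k₀ k] {κ : Type} [Fintype κ]
    [DecidableEq κ] (q s : ℕ) (E : k[X]) (b : κ → k[X]) (m : κ → ℕ) (o : κ) {O : Type}
    [CommRing O] [Algebra k[X] O] (𝔪 : MaximalSpectrum O) :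
    fibMat k₀ q s E b m o 𝔪 = fibRes q s E b m o 𝔪 := by
  unfold fibMat fibRes
  congr 1
  funext j
  rw [phi_field (k := k₀)]

section main

variable {k : Type} [Field k] [Finite k] {p : ℕ} [hp : Fact p.Prime] [CharP k p] {r : ℕ}

/-- **no zero at `s = 1` over the coverings of `p`-power degree without anomalous ramified
places** -/
theorem control {q f₀ s : ℕ} (hq : q = p ^ f₀) (hf₀ : 0 < f₀) (hk : Nat.card k = q ^ s) {n : ℕ}
    (hn : n ∣ q - 1) (B : k[X]) (b : Fin (r + 1) → k[X])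
    (a : Fin (r + 1) → ℕ) (ha : ∀ i, 0 < a i) (hap : (q - 1) / n * ∑ i, a i < p) (d : ℕ)
    (hd : 0 < d) (hr : 0 < r)
    (hb : ∀ i, (b i).natDegree ≤ d) (hdeg : B.natDegree + d * ∑ i, a i < n)
    (G O : Type) [Group G] [Finite G] [CommRing O] [Algebra k[X] O] [MulSemiringAction G O]
    [IsGaloisGroup G k[X] O] [FaithfulSMul k[X] O] (hG : IsPGroup p G) (R₀ : k[X]) (hR₀ : R₀ ≠ 0)
    (hun : ∀ 𝔪 : MaximalSpectrum O, vO k 𝔪 R₀ ≠ 0 → 𝔪.asIdeal.inertia G = ⊥)
    (hna : ∀ 𝔪 : MaximalSpectrum O, vO k 𝔪 B ≠ 0 → 𝔪.asIdeal.inertia G ≠ ⊥ →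
      (1 - fibRes q s (B ^ ((q - 1) / n)) b (fun i => (q - 1) / n * a i) 0 𝔪).det ≠ 0)
    (χ : MulChar k ℂ) (hχ : orderOf χ = n) (H : ℂ[X]) :
    LO O χ B b a ≠ (((1 - C ((Nat.card k : ℂ)) * X) * H : ℂ[X]) : PowerSeries ℂ) := by
  intro hH
  have := Fintype.ofFinite k
  have hk' : Fintype.card k = q ^ s := by rw [← Nat.card_eq_fintype_card, hk]
  have hq2 : 2 ≤ q := by
    rw [hq]
    exact hp.out.two_le.trans (Nat.le_self_pow hf₀.ne' p)
  have hp1 : 0 < q - 1 := by omega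
  have hn0 : 0 < n := Nat.pos_of_dvd_of_pos hn hp1
  -- the degrees
  have hsum : 2 ≤ ∑ i, a i := by
    have h1 : ∑ i : Fin (r + 1), 1 ≤ ∑ i, a i := Finset.sum_le_sum fun i _ => ha i
    rw [Finset.sum_const, Finset.card_univ, Fintype.card_fin, smul_eq_mul, mul_one] at h1
    omega
  have hsd : ∑ i, a i ≤ d * ∑ i, a i := Nat.le_mul_of_pos_left _ hd
  have hnle := Nat.le_of_dvd hp1 hn
  set c := (q - 1) / n with hc
  have hcn : n * c = q - 1 := Nat.mul_div_cancel' hn
  have hc0 : 0 < c := Nat.div_pos hnle hn0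
  have hp3 : 3 ≤ p := by
    have : ∑ i, a i ≤ c * ∑ i, a i := Nat.le_mul_of_pos_left _ hc0
    omega
  have hq5 : 5 ≤ q := by
    rcases Nat.lt_or_ge q 5 with h | h
    · exfalso
      have h4 : q = 4 := by omega
      have h5 : Even (p ^ f₀) := by
        rw [← hq, h4]
        decide
      have h6 := (Nat.even_pow.1 h5).1
      have h7 := hp.out.even_iff.1 h6
      omega
    · exact h
  have hs0 : 0 < s := by
    rcases Nat.eq_zero_or_pos s with h | h
    · rw [h, pow_zero] at hk'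
      have := Fintype.one_lt_card (α := k)
      omega
    · exact h
  -- the subfield of constants
  let k₁ := GaloisField p f₀
  obtain ⟨φ⟩ : Nonempty (GaloisField p f₀ →+* k) := by
    let _ : Algebra (ZMod p) k := ZMod.algebra k p
    have h1 : finrank (ZMod p) k = f₀ * s := by
      have h2 := Module.card_eq_pow_finrank (K := ZMod p) (V := k)
      rw [ZMod.card, hk', hq, ← pow_mul] at h2
      exact (Nat.pow_right_injective hp.out.two_le h2).symm
    have h2 : finrank (ZMod p) (GaloisField p f₀) ∣ finrank (ZMod p) k := by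
      rw [h1, GaloisField.finrank p hf₀.ne']
      exact dvd_mul_right _ _
    obtain ⟨g⟩ := FiniteField.nonempty_algHom_of_finrank_dvd h2
    exact ⟨g.toRingHom⟩
  let _ : Algebra k₁ k := φ.toAlgebra
  have hfin : Finite k₁ := Nat.finite_of_card_ne_zero (by
    rw [GaloisField.card p f₀ hf₀.ne']
    exact pow_ne_zero _ hp.out.ne_zero)
  let _ : Fintype k₁ := Fintype.ofFinite k₁
  have hk₁ : Fintype.card k₁ = q := by
    rw [← Nat.card_eq_fintype_card, GaloisField.card p f₀ hf₀.ne', hq]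
  have hcp : CharP k₁ p := φ.charP φ.injective p
  have hpk : q - 1 ∣ Nat.card k - 1 := by
    rw [hk]
    have := Nat.sub_dvd_pow_sub_pow q 1 s
    rwa [one_pow] at this
  obtain ⟨χ₁, h1, h2⟩ := exists_char_root hp1 hn hpk χ hχ
  obtain ⟨χ₂, h3, h4⟩ := exists_char (k₀ := k₁) hk₁ χ₁ h1
  have hH2 : LO O χ₂ (B ^ c) b (fun i => c * a i) =
      (((1 - C (((q ^ s : ℕ)) : ℂ) * X) * H : ℂ[X]) : PowerSeries ℂ) := by
    rw [← LO_norm G h4, ← LO_pow hc0, h2, hH, hk]
  have hdeg' : (B ^ c).natDegree + d * ∑ i, c * a i < (q - 1) * (0 + 1) := by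
    rw [← Finset.mul_sum, zero_add, mul_one]
    have h5 := natDegree_pow_le (p := B) (n := c)
    calc (B ^ c).natDegree + d * (c * ∑ i, a i) ≤ c * B.natDegree + d * (c * ∑ i, a i) :=
          Nat.add_le_add_right h5 _
      _ = c * (B.natDegree + d * ∑ i, a i) := by ring
      _ < c * n := Nat.mul_lt_mul_of_pos_left hdeg hc0
      _ = q - 1 := by rw [mul_comm, hcn]
  have hle : ∑ i, c * a i ≤ d * ∑ i, c * a i := Nat.le_mul_of_pos_left _ hd
  have hinv : ∀ i : ℕ, i < ∑ l, c * a l → ((i : k₁) + 1) ≠ 0 := by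
    intro i hi h
    have h6 : ((i + 1 : ℕ) : k₁) = 0 := by rw [Nat.cast_succ, h]
    rw [CharP.cast_eq_zero_iff k₁ p] at h6
    have h7 := Nat.le_of_dvd (Nat.succ_pos i) h6
    rw [← Finset.mul_sum] at hi
    omega
  -- the transfer to the Witt vectors
  obtain ⟨g, hg⟩ := IsPGroup.iff_card.1 hG
  let K := AlgebraicClosure k
  have hpK : CharP K p := charP_of_injective_algebraMap (algebraMap k K).injective p
  have hc0' := witt_charZero p K
  obtain ⟨H', hH'⟩ := transfer χ₂ (by rw [h3, hk₁]) (teichChar (k := k₁) p K)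
    (orderOf_teichChar p K) _ (cover_finite (k := k) G)
    (fun z : Σ 𝔪 : MaximalSpectrum O, MI (RO k 𝔪) => Algebra.norm k₁ (AdjoinRoot.mk z.2.1
      (fibp (vO k z.1 (B ^ c)) (fun i => vO k z.1 (b i)) (fun i => c * a i)))) (q ^ s) H hH2
  obtain ⟨L, Δ, h5, h6, h7⟩ := global_feR (k₀ := k₁) (k := k) (K := K)
    (WittVector.constantCoeff (p := p) (R := K))
    (fun r hr => WittVector.isUnit_of_coeff_zero_ne_zero r hr) (teichChar (k := k₁) p K)
    (fun u => by
      rw [teichChar_apply, IsScalarTower.algebraMap_apply k₁ k K]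
      exact coeff_teich p K _) G hq hf₀ hk₁ hs0 hk' hq5 hg (B ^ c) b hb
    (m := fun i => c * a i) (fun i => Nat.mul_pos hc0 (ha i)) (by omega) hinv 0 hdeg' R₀ hR₀ hun
  have h8 := eval_of_fe (WittVector.constantCoeff (p := p) (R := K)) (q := q ^ s)
    (pow_ne_zero _ (by omega)) (by rw [Nat.cast_pow]; exact h5) h6 H' hH'
  rcases h7 h8 with h9 | ⟨𝔪, _, hB, hI, h9⟩
  · rw [eval_charpolyRev_one, Matrix.det_isEmpty] at h9
    exact one_ne_zero h9
  · rw [eval_charpolyRev_one, fibMat_eq] at h9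
    refine hna 𝔪 ?_ hI h9
    intro h0
    rw [map_pow, h0, zero_pow hc0.ne'] at hB
    exact hB rfl

end main

end Pool.Agent.K4H5.PT

namespace Pool.Agent.K4H5.PT

open Pool.Agent.W313.Hyp Pool.Agent.W343.BSD Pool.Agent.Y709 Pool.Agent.Y709.Gen
  Pool.Agent.Y709.Lay

section fixed

variable {k₀ k : Type} [Field k₀] [Fintype k₀] [Field k] [Fintype k] [Algebra k₀ k]
  {p f₀ q s : ℕ} [hp : Fact p.Prime] [CharP k p]
  {O : Type} [CommRing O] [Algebra k[X] O] (G : Type) [Group G] [Finite G]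
  [MulSemiringAction G O] [IsGaloisGroup G k[X] O] [FaithfulSMul k[X] O]

include G in
/-- vanishing over a covering without anomalous ramified places gives a fixed vector of the
minor -/
theorem fixed_minorR {r : ℕ} (hq : q = p ^ f₀) (hf₀ : 0 < f₀) (hk₀ : Fintype.card k₀ = q)
    (hs : 0 < s) (hk : Fintype.card k = q ^ s) (h5 : 5 ≤ q) (hG : IsPGroup p G)
    (χ : MulChar k₀ ℂ) (hχ : orderOf χ = q - 1) (B : k[X]) (b : Fin (r + 1) → k[X])
    (m : Fin (r + 1) → ℕ) (hm : ∀ i, 0 < m i) (hmq : ∑ i, m i < q - 1)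
    (hinv : ∀ i : ℕ, i < ∑ l, m l → ((i : k₀) + 1) ≠ 0) (D : k[X]) (R₀ : k[X]) (hR₀ : R₀ ≠ 0)
    (hun : ∀ 𝔪 : MaximalSpectrum O, vO k 𝔪 R₀ ≠ 0 → 𝔪.asIdeal.inertia G = ⊥)
    (hna : ∀ 𝔪 : MaximalSpectrum O, vO k 𝔪 (D * B) ≠ 0 → 𝔪.asIdeal.inertia G ≠ ⊥ →
      (1 - fibRes q s (D * B) b m 0 𝔪).det ≠ 0) (H : ℂ[X])
    (hH : LO O χ (D * B) b m =
      (((1 - C (((q ^ s : ℕ)) : ℂ) * X) * H : ℂ[X]) : PowerSeries ℂ)) :
    ∃ w : Fin r → k[X], w ≠ 0 ∧
      ∀ i, cart q (D * ∑ j, minor B b m i j * w j) = (w i).map (iterateFrobenius k p f₀) := by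
  obtain ⟨g, hg⟩ := IsPGroup.iff_card.1 hG
  let K := AlgebraicClosure k
  have hpK : CharP K p := charP_of_injective_algebraMap (algebraMap k K).injective p
  have hpk₀ : CharP k₀ p := (algebraMap k₀ k).charP (algebraMap k₀ k).injective p
  have hc0 := witt_charZero p K
  set E := D * B with hE
  obtain ⟨H', hH'⟩ := transfer χ (by rw [hχ, hk₀]) (teichChar (k := k₀) p K)
    (orderOf_teichChar p K) _ (cover_finite (k := k) G)
    (fun z : Σ 𝔪 : MaximalSpectrum O, MI (RO k 𝔪) => Algebra.norm k₀ (AdjoinRoot.mk z.2.1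
      (fibp (vO k z.1 E) (fun i => vO k z.1 (b i)) m))) (q ^ s) H hH
  set d := ∑ i, (b i).natDegree with hd
  have hb : ∀ i, (b i).natDegree ≤ d := fun i =>
    Finset.single_le_sum (f := fun i => (b i).natDegree) (fun _ _ => Nat.zero_le _)
      (Finset.mem_univ i)
  set e := E.natDegree + d * ∑ i, m i with he
  have hn : e < (q - 1) * (e + 1) := by
    have h1 : 1 * (e + 1) ≤ (q - 1) * (e + 1) := Nat.mul_le_mul_right _ (by omega)
    omega
  obtain ⟨L, Δ, h1, h2, h3⟩ := global_feR (k₀ := k₀) (k := k) (K := K)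
    (WittVector.constantCoeff (p := p) (R := K))
    (fun r hr => WittVector.isUnit_of_coeff_zero_ne_zero r hr) (teichChar (k := k₀) p K)
    (fun u => by
      rw [teichChar_apply, IsScalarTower.algebraMap_apply k₀ k K]
      exact coeff_teich p K _) G hq hf₀ hk₀ hs hk h5 hg E b hb hm hmq hinv 0 hn R₀ hR₀ hun
  have h4 := eval_of_fe (WittVector.constantCoeff (p := p) (R := K)) (q := q ^ s)
    (pow_ne_zero _ (by omega)) (by rw [Nat.cast_pow]; exact h1) h2 H' hH'
  rcases h3 h4 with h5 | ⟨𝔪, _, hB, hI, h9⟩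
  · obtain ⟨w, hw0, hw⟩ := fixed_of_detS hq (by omega) hs hk e (MG E b m 0)
      (fun i j => (natDegree_MG E hb hm 0 i j).trans_lt hn) h5
    have hw' : ∀ i, cart q (∑ j, E * phi k b m 0 i j * w j) =
        (w i).map (iterateFrobenius k p f₀) := hw
    have hw00 : w 0 = 0 := by
      have h8 : ∑ j, E * phi k b m 0 0 j * w j = 0 := by
        refine Finset.sum_eq_zero fun j _ => ?_
        rw [phi_row k _ _ rfl, mul_zero, zero_mul]
      have h9 := hw' 0
      rw [h8, cart_zero (by omega)] at h9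
      exact (Polynomial.map_eq_zero _).1 h9.symm
    refine ⟨fun i => w i.succ, ?_, ?_⟩
    · intro h9
      apply hw0
      funext i
      refine Fin.cases hw00 (fun i => ?_) i
      exact congrFun h9 i
    · intro i
      show cart q (D * ∑ j, minor B b m i j * w j.succ) = _
      refine Eq.trans ?_ (hw' i.succ)
      have h10 : D * ∑ j : Fin r, minor B b m i j * w j.succ =
          ∑ j : Fin (r + 1), E * phi k b m 0 i.succ j * w j := by
        rw [Fin.sum_univ_succ, hw00, mul_zero, zero_add, Finset.mul_sum]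
        refine Finset.sum_congr rfl fun j _ => ?_
        rw [hE]
        unfold minor
        rw [Matrix.of_apply]
        ring
      rw [h10]
  · exfalso
    rw [eval_charpolyRev_one, fibMat_eq] at h9
    exact hna 𝔪 hB hI h9

end fixed

end Pool.Agent.K4H5.PT
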