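import Pool.Agent.K4H5.PT.Control
import Pool.Agent.Y709.Kum.CountH
import Pool.Agent.Y709.Irr.Sq

/-!
The number of the twists with a zero at `s = 1` over some covering of `p`-power degree without
anomalous ramified places.
-/

set_option autoImplicit false
set_option linter.unusedSectionVars false

open Polynomial Module

namespace Pool.Agent.K4H5.PT

open Pool.Agent.W313.Hyp Pool.Agent.W343.BSD Pool.Agent.Y709 Pool.Agent.Y709.Gen
open Pool.Agent.Y709.Lay Pool.Agent.Y709.Irr Pool.Agent.Y709.IrrS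

section count

variable {k : Type} [Field k] [Fintype k] {r q : ℕ}

/-- the twist has a zero over some covering without anomalous ramified places -/
def VanN {k : Type} [Field k] (p q s : ℕ) {r : ℕ} (E : k[X]) (b : Fin (r + 1) → k[X])
    (m : Fin (r + 1) → ℕ) : Prop :=
  ∃ (G O : Type) (_ : Group G) (_ : Finite G) (_ : CommRing O) (_ : Algebra k[X] O)
    (_ : MulSemiringAction G O) (_ : IsGaloisGroup G k[X] O) (_ : FaithfulSMul k[X] O),
    IsPGroup p G ∧ (∃ R₀ : k[X], R₀ ≠ 0 ∧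
      ∀ 𝔪 : MaximalSpectrum O, vO k 𝔪 R₀ ≠ 0 → 𝔪.asIdeal.inertia G = ⊥) ∧
    (∀ 𝔪 : MaximalSpectrum O, vO k 𝔪 E ≠ 0 → 𝔪.asIdeal.inertia G ≠ ⊥ →
      (1 - fibRes q s E b m 0 𝔪).det ≠ 0) ∧
    ∃ χ : MulChar k ℂ, orderOf χ = q - 1 ∧ ∃ H : ℂ[X],
      LO O χ E b m = (((1 - C ((Nat.card k : ℂ)) * X) * H : ℂ[X]) : PowerSeries ℂ)

/-- **the number of the twists with a zero over some covering** -/
theorem count_vanN {p f₀ s : ℕ} [hp : Fact p.Prime] [CharP k p] (hq : q = p ^ f₀) (hf₀ : 0 < f₀)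
    (hs : 0 < s) (hk : Fintype.card k = q ^ s) (B : k[X]) (hB : B ≠ 0)
    (b : ℕ) (hb : ∀ P : k[X], Irreducible P → ¬ P ^ (b + 1) ∣ B) {β : Fin (r + 1) → k[X]}
    {m : Fin (r + 1) → ℕ} {d : ℕ} (h : Simple β d) (hm : ∀ i, 0 < m i)
    (hmp : ∑ l, m l < p) (hrn : r * ∑ l, m l ≤ q - 1)
    (hcop : ∀ P : k[X], Irreducible P → P ∣ B → ∀ i j, i ≠ j → ¬ P ∣ β i - β j)
    (hn4 : ∑ l, m l + 3 * r + 4 ≤ q) (hnb : b + 3 * r + 4 ≤ q) (hrq : 4 * (r + 1) ^ 2 ≤ q)
    (f ρ V N : ℕ) (hf : f = B.natDegree + d * ∑ l, m l) (hρ : 2 * r + 1 ≤ ρ) (hρq : ρ + 2 ≤ q)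
    (hV : 8 * (r + 1) ^ 2 * (f + 1) ≤ V) (hN : N + f = (q - 1) * V + ρ) :
    q * {D : k[X] | D.natDegree ≤ N ∧ VanN p q s (D * B) β m}.ncard ≤
      2 * Nat.card k ^ (N + 1) := by
  classical
  obtain ⟨φ⟩ := exists_const k p f₀ s hf₀ (by rw [hk, hq])
  let k₀ := GaloisField p f₀
  let _ : Algebra k₀ k := φ.toAlgebra
  have hfin : Finite k₀ := Nat.finite_of_card_ne_zero (by
    rw [GaloisField.card p f₀ hf₀.ne']
    exact pow_ne_zero _ hp.out.ne_zero)
  let _ : Fintype k₀ := Fintype.ofFinite k₀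
  have hk₀ : Fintype.card k₀ = q := by
    rw [← Nat.card_eq_fintype_card, GaloisField.card p f₀ hf₀.ne', hq]
  have hcp : CharP k₀ p := φ.charP φ.injective p
  have hinv : ∀ i : ℕ, i < ∑ l, m l → ((i : k₀) + 1) ≠ 0 := by
    intro i hi h
    have h1 : ((i + 1 : ℕ) : k₀) = 0 := by rw [Nat.cast_succ, h]
    rw [CharP.cast_eq_zero_iff k₀ p] at h1
    have h2 := Nat.le_of_dvd (Nat.succ_pos i) h1
    omega
  have hinv' : ∀ i : ℕ, i < ∑ l, m l → ((i : k) + 1) ≠ 0 := by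
    intro i hi h
    have h1 : ((i + 1 : ℕ) : k) = 0 := by rw [Nat.cast_succ, h]
    rw [CharP.cast_eq_zero_iff k p] at h1
    have h2 := Nat.le_of_dvd (Nat.succ_pos i) h1
    omega
  have hmle : ∀ i, m i < q := by
    intro i
    have : m i ≤ ∑ i, m i := Finset.single_le_sum (f := m) (fun _ _ => Nat.zero_le _)
      (Finset.mem_univ i)
    omega
  have hinj : Function.Injective β := by
    intro i j hij
    by_contra hne
    exact h.ne hne (sub_eq_zero.2 hij)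
  have hdet := det_minor (k := k) hq hf₀ (one_ne_zero (α := k[X])) hinj hm hmle hinv'
  have h6 := Pool.Agent.Y709.Kum.simple_boundC hq hf₀ hs hk B hB (max (∑ l, m l) b) h hm hinv' hrn
    (fun P hP => Pool.Agent.Y709.Kum.mult_coprime h hm hinv' hdet b hb hcop _ (le_max_right _ _)
      (le_max_left _ _) hP) (le_max_left _ _) (by
        rcases le_total (∑ l, m l) b with h1 | h1
        · rw [max_eq_right h1]
          omega
        · rw [max_eq_left h1]
          omega) hrq f ρ V N hf hρ hρq hV hN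
  have hsub : {D : k[X] | D.natDegree ≤ N ∧ VanN p q s (D * B) β m} ⊆
      {D : k[X] | D.natDegree ≤ N ∧ ∃ w : Fin r → k[X], w ≠ 0 ∧
        ∀ i, cart q (D * ∑ j, minor B β m i j * w j) = (w i).map (iterateFrobenius k p f₀)} := by
    rintro D ⟨hD, G, O, i1, i2, i3, i4, i5, i6, i7, hG, ⟨R₀, hR₀, hun⟩, hna, χ₁, h1, H, hH⟩
    obtain ⟨χ₂, h3, h4⟩ := exists_char (k₀ := k₀) hk₀ χ₁ h1
    have hn0 : 0 < ∑ i, m i := Finset.sum_pos (fun i _ => hm i) ⟨0, Finset.mem_univ _⟩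
    have hq5 : 5 ≤ q := by omega
    refine ⟨hD, fixed_minorR (k₀ := k₀) G hq hf₀ hk₀ hs hk hq5 hG χ₂ h3 B β m hm (by omega)
      hinv D R₀ hR₀ hun hna H ?_⟩
    rw [← LO_norm G h4, hH, Nat.card_eq_fintype_card, hk]
  have h7 : {D : k[X] | D.natDegree ≤ N ∧ VanN p q s (D * B) β m}.ncard ≤
      Nat.card {D : k[X] // D.natDegree ≤ N ∧ ∃ w : Fin r → k[X], w ≠ 0 ∧
        ∀ i, cart q (D * ∑ j, minor B β m i j * w j) = (w i).map (iterateFrobenius k p f₀)} := by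
    have h8 := Set.ncard_le_ncard hsub ((finite_natDegree_le N).subset fun D hD => hD.1)
    refine h8.trans (le_of_eq ?_)
    exact (Nat.card_coe_set_eq _).symm
  exact (Nat.mul_le_mul_left q h7).trans h6

end count

end Pool.Agent.K4H5.PT
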