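import Pool.Agent.K4H5.PT.Small
import Mathlib.FieldTheory.Finite.GaloisField

/-!
Characters whose order divides `p - 1`.
-/

set_option autoImplicit false
set_option linter.unusedSectionVars false

open Polynomial Module

namespace Pool.Agent.K4H5.PT

open Pool.Agent.W313.Hyp Pool.Agent.W343.BSD Pool.Agent.Y709 Pool.Agent.Y709.Gen
  Pool.Agent.Y709.Lay

/-- a primitive root of order `n` is a power of a primitive root of order `N` -/
theorem exists_prim {E : Type} [Field E] [CharZero E] [IsAlgClosed E] {n N : ℕ} (hN : 0 < N)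
    (h : n ∣ N) {ω : E} (hω : IsPrimitiveRoot ω n) :
    ∃ ω₁ : E, IsPrimitiveRoot ω₁ N ∧ ω₁ ^ (N / n) = ω := by
  have hn : 0 < n := Nat.pos_of_dvd_of_pos h hN
  have : NeZero N := ⟨hN.ne'⟩
  have : NeZero n := ⟨hn.ne'⟩
  have hNE : NeZero ((N : ℕ) : E) := ⟨by exact_mod_cast hN.ne'⟩
  obtain ⟨ξ, hξ⟩ := HasEnoughRootsOfUnity.exists_primitiveRoot E N
  have h1 : IsPrimitiveRoot (ξ ^ (N / n)) n :=
    hξ.pow hN (Nat.div_mul_cancel h).symm
  obtain ⟨i, hi, hiω⟩ := h1.eq_pow_of_pow_eq_one hω.pow_eq_one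
  have hico : i.Coprime n := by
    have h2 := hω
    rw [← hiω] at h2
    exact (h1.pow_iff_coprime hn i).1 h2
  obtain ⟨u, hu⟩ := ZMod.unitsMap_surjective h (ZMod.unitOfCoprime i hico)
  set i' := ((u : ZMod N)).val with hi'
  have hco : i'.Coprime N := ZMod.val_coe_unit_coprime u
  have hmod : ((i' : ℕ) : ZMod n) = (i : ZMod n) := by
    have h3 := congrArg (fun v : (ZMod n)ˣ => (v : ZMod n)) hu
    simp only [ZMod.unitsMap_val, ZMod.coe_unitOfCoprime] at h3
    rw [← h3, hi', ZMod.natCast_val]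
  refine ⟨ξ ^ i', hξ.pow_of_coprime i' hco, ?_⟩
  rw [← pow_mul, mul_comm, pow_mul, ← hiω]
  have h4 : i' ≡ i [MOD n] := (ZMod.natCast_eq_natCast_iff i' i n).1 hmod
  exact pow_eq_pow_of_modEq h4 h1.pow_eq_one

variable {k₀ k : Type} [Field k₀] [Field k] [Finite k] [Algebra k₀ k]

/-- a character of order `n`, a divisor of `N`, is a power of a character of order `N` -/
theorem exists_char_root {n N : ℕ} (hN : 0 < N) (h : n ∣ N) (hNk : N ∣ Nat.card k - 1)
    (χ : MulChar k ℂ) (hχ : orderOf χ = n) :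
    ∃ χ₁ : MulChar k ℂ, orderOf χ₁ = N ∧ χ₁ ^ (N / n) = χ := by
  classical
  have := Fintype.ofFinite k
  have hn : 0 < n := Nat.pos_of_dvd_of_pos h hN
  obtain ⟨g, hg⟩ := IsCyclic.exists_generator (α := kˣ)
  have hgen : ∀ u : k, u ≠ 0 → ∃ j : ℕ, u = (g : k) ^ j := by
    intro u hu
    obtain ⟨j, hj⟩ := (mem_powers_iff_mem_zpowers).2 (hg (Units.mk0 u hu))
    dsimp only at hj
    exact ⟨j, by rw [← Units.val_pow_eq_pow_val, hj, Units.val_mk0]⟩
  -- powers of characters are determined by the value at the generator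
  have hpow : ∀ (ψ : MulChar k ℂ) (j : ℕ), ψ ^ j = 1 ↔ (ψ (g : k)) ^ j = 1 := by
    intro ψ j
    constructor
    · intro h1
      have h2 := congrArg (fun ψ : MulChar k ℂ => ψ (g : k)) h1
      simp only [MulChar.pow_apply_coe, MulChar.one_apply_coe] at h2
      exact h2
    · intro h1
      refine MulChar.ext fun u => ?_
      obtain ⟨i, hi⟩ := hgen u u.ne_zero
      rw [MulChar.pow_apply_coe, MulChar.one_apply_coe, hi, map_pow, ← pow_mul, mul_comm, pow_mul,
        h1, one_pow]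
  have hω : IsPrimitiveRoot (χ (g : k)) n := by
    rw [← hχ]
    constructor
    · exact (hpow χ _).1 (pow_orderOf_eq_one χ)
    · intro l hl
      exact orderOf_dvd_of_pow_eq_one ((hpow χ l).2 hl)
  obtain ⟨ω₁, h1, h2⟩ := exists_prim hN h hω
  have hcu : Fintype.card kˣ = Nat.card k - 1 := by
    rw [Fintype.card_units, Nat.card_eq_fintype_card]
  have hmem : (h1.isUnit hN.ne').unit ∈ rootsOfUnity (Fintype.card kˣ) ℂ := by
    rw [mem_rootsOfUnity]
    apply Units.ext
    rw [Units.val_pow_eq_pow_val, IsUnit.unit_spec, Units.val_one, hcu]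
    obtain ⟨c, hc⟩ := hNk
    rw [hc, pow_mul, h1.pow_eq_one, one_pow]
  set χ₁ : MulChar k ℂ := MulChar.ofRootOfUnity hmem hg with hχ₁
  have hχ₁g : χ₁ (g : k) = ω₁ := MulChar.ofRootOfUnity_spec hmem hg
  refine ⟨χ₁, ?_, ?_⟩
  · have h3 : orderOf χ₁ = orderOf ω₁ := by
      rw [orderOf_eq_orderOf_iff]
      intro j
      rw [hpow, hχ₁g]
    rw [h3, ← h1.eq_orderOf]
  · refine MulChar.ext fun u => ?_
    obtain ⟨i, hi⟩ := hgen u u.ne_zero
    rw [MulChar.pow_apply_coe, hi, map_pow, map_pow, hχ₁g, ← pow_mul, mul_comm, pow_mul, h2]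

section lo

variable {O : Type} [CommRing O] [Algebra k[X] O] {R : Type} [CommRing R] {κ : Type} [Fintype κ]

omit [Finite k] in
theorem LO_pow {c : ℕ} (hc : 0 < c) (χ : MulChar k₀ R) (E : k[X]) (b : κ → k[X]) (m : κ → ℕ) :
    LO O (χ ^ c) E b m = LO O χ (E ^ c) b (fun i => c * m i) := by
  unfold LO
  congr 1
  funext z
  have h1 : fibp (vO k z.1 (E ^ c)) (fun i => vO k z.1 (b i)) (fun i => c * m i) =
      fibp (vO k z.1 E) (fun i => vO k z.1 (b i)) m ^ c := by
    unfold fibp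
    rw [map_pow, mul_pow, C_pow, ← Finset.prod_pow]
    congr 1
    refine Finset.prod_congr rfl fun i _ => ?_
    rw [← pow_mul, mul_comm]
  rw [h1, map_pow (AdjoinRoot.mk z.2.1), map_pow (Algebra.norm k₀), map_pow χ,
    MulChar.pow_apply' χ hc.ne']

end lo

section main

variable {p : ℕ} [hp : Fact p.Prime] [CharP k p] {r : ℕ}

/-- **no zeros for the characters whose order divides `q - 1`, for small degrees** -/
theorem not_vanX {q f₀ s : ℕ} (hq : q = p ^ f₀) (hf₀ : 0 < f₀) (hk : Nat.card k = q ^ s) {n : ℕ}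
    (hn : n ∣ q - 1) (B : k[X]) (b : Fin (r + 1) → k[X])
    (a : Fin (r + 1) → ℕ) (ha : ∀ i, 0 < a i) (hap : (q - 1) / n * ∑ i, a i < p) (d : ℕ)
    (hd : 0 < d) (hr : 0 < r)
    (hb : ∀ i, (b i).natDegree ≤ d) (hdeg : B.natDegree + d * ∑ i, a i < n) (e : ℕ)
    (he : e ∣ q - 1) : ¬ VanX p n e B b a := by
  have := Fintype.ofFinite k
  have hk' : Fintype.card k = q ^ s := by rw [← Nat.card_eq_fintype_card, hk]
  have hq2 : 2 ≤ q := by
    rw [hq]
    exact hp.out.two_le.trans (Nat.le_self_pow hf₀.ne' p)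
  have hp1 : 0 < q - 1 := by omega
  have hn0 : 0 < n := Nat.pos_of_dvd_of_pos hn hp1
  -- the degrees
  have hsum : 2 ≤ ∑ i, a i := by
    have h1 : ∑ i : Fin (r + 1), 1 ≤ ∑ i, a i := Finset.sum_le_sum fun i _ => ha i
    rw [Finset.sum_const, Finset.card_univ, Fintype.card_fin, smul_eq_mul, mul_one] at h1
    omega
  have hsd : ∑ i, a i ≤ d * ∑ i, a i := Nat.le_mul_of_pos_left _ hd
  have hnle := Nat.le_of_dvd hp1 hn
  set c := (q - 1) / n with hc
  have hcn : n * c = q - 1 := Nat.mul_div_cancel' hn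
  have hc0 : 0 < c := Nat.div_pos hnle hn0
  have hp3 : 3 ≤ p := by
    have : ∑ i, a i ≤ c * ∑ i, a i := Nat.le_mul_of_pos_left _ hc0
    omega
  have hq5 : 5 ≤ q := by
    rcases Nat.lt_or_ge q 5 with h | h
    · exfalso
      have h4 : q = 4 := by omega
      have h5 : Even (p ^ f₀) := by
        rw [← hq, h4]
        decide
      have h6 := (Nat.even_pow.1 h5).1
      have h7 := hp.out.even_iff.1 h6
      omega
    · exact h
  have hs0 : 0 < s := by
    rcases Nat.eq_zero_or_pos s with h | h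
    · rw [h, pow_zero] at hk'
      have := Fintype.one_lt_card (α := k)
      omega
    · exact h
  -- the subfield of constants
  let k₁ := GaloisField p f₀
  obtain ⟨φ⟩ : Nonempty (GaloisField p f₀ →+* k) := by
    let _ : Algebra (ZMod p) k := ZMod.algebra k p
    have h1 : finrank (ZMod p) k = f₀ * s := by
      have h2 := Module.card_eq_pow_finrank (K := ZMod p) (V := k)
      rw [ZMod.card, hk', hq, ← pow_mul] at h2
      exact (Nat.pow_right_injective hp.out.two_le h2).symm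
    have h2 : finrank (ZMod p) (GaloisField p f₀) ∣ finrank (ZMod p) k := by
      rw [h1, GaloisField.finrank p hf₀.ne']
      exact dvd_mul_right _ _
    obtain ⟨g⟩ := FiniteField.nonempty_algHom_of_finrank_dvd h2
    exact ⟨g.toRingHom⟩
  let _ : Algebra k₁ k := φ.toAlgebra
  have hfin : Finite k₁ := Nat.finite_of_card_ne_zero (by
    rw [GaloisField.card p f₀ hf₀.ne']
    exact pow_ne_zero _ hp.out.ne_zero)
  let _ : Fintype k₁ := Fintype.ofFinite k₁
  have hk₁ : Fintype.card k₁ = q := by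
    rw [← Nat.card_eq_fintype_card, GaloisField.card p f₀ hf₀.ne', hq]
  have hcp : CharP k₁ p := φ.charP φ.injective p
  have hpk : q - 1 ∣ Nat.card k - 1 := by
    rw [hk]
    have := Nat.sub_dvd_pow_sub_pow q 1 s
    rwa [one_pow] at this
  rintro ⟨G, O, i1, i2, i3, i4, i5, i6, i7, hG, hun, χ, hχ, ζ, hζ, H, hH⟩
  obtain ⟨χ₁, h1, h2⟩ := exists_char_root hp1 hn hpk χ hχ
  have h3 : VanX p (q - 1) e (B ^ c) b (fun i => c * a i) := by
    refine ⟨G, O, i1, i2, i3, i4, i5, i6, i7, hG, ?_, χ₁, h1, ζ, hζ, H, ?_⟩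
    · intro 𝔪 h𝔪
      apply hun
      intro h0
      rw [map_pow, h0, zero_pow hc0.ne'] at h𝔪
      exact h𝔪 rfl
    · rw [← LO_pow hc0, h2, hH]
  have h4 := vanL_of_vanX (k₀ := k₁) (k := k) (q := q) (s := s) hk₁ hk' h3
  have hdeg' : (B ^ c).natDegree + d * ∑ i, c * a i < q - 1 := by
    rw [← Finset.mul_sum]
    have h5 := natDegree_pow_le (p := B) (n := c)
    calc (B ^ c).natDegree + d * (c * ∑ i, a i) ≤ c * B.natDegree + d * (c * ∑ i, a i) :=
          Nat.add_le_add_right h5 _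
      _ = c * (B.natDegree + d * ∑ i, a i) := by ring
      _ < c * n := Nat.mul_lt_mul_of_pos_left hdeg hc0
      _ = q - 1 := by rw [mul_comm, hcn]
  have hle : ∑ i, c * a i ≤ d * ∑ i, c * a i := Nat.le_mul_of_pos_left _ hd
  refine not_vanL (k₀ := k₁) (k := k) (f₀ := f₀) (q := q) hq hf₀ hk₁
    hs0 hk' hq5 (B ^ c) b (fun i => c * a i) (fun i => Nat.mul_pos hc0 (ha i)) (by omega) ?_ e he d
    hb hdeg' h4
  intro i hi h
  have h6 : ((i + 1 : ℕ) : k₁) = 0 := by rw [Nat.cast_succ, h]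
  rw [CharP.cast_eq_zero_iff k₁ p] at h6
  have h7 := Nat.le_of_dvd (Nat.succ_pos i) h6
  rw [← Finset.mul_sum] at hi
  omega

end main

end Pool.Agent.K4H5.PT
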