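import Pool.Agent.Y709.Lay.CharN

/-!
Pencils of small degree: there are no fixed vectors, and no zeros over coverings of `p`-power degree.
-/

set_option autoImplicit false
set_option linter.unusedSectionVars false

open Polynomial Module

namespace Pool.Agent.K4H5.PT

open Pool.Agent.W313.Hyp Pool.Agent.W343.BSD Pool.Agent.Y709 Pool.Agent.Y709.Gen
  Pool.Agent.Y709.Lay

section small

variable {k : Type} [Field k]

/-- a system of small degree has no fixed vector -/
theorem no_fixed {q r e : ℕ} (he : e < q - 1) (τ : k →+* k) (M : Fin r → Fin r → k[X])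
    (hM : ∀ i j, (M i j).natDegree ≤ e) (w : Fin r → k[X]) (hw0 : w ≠ 0)
    (hw : ∀ i, cart q (∑ j, M i j * w j) = (w i).map τ) : False := by
  classical
  have hq : 0 < q := by omega
  obtain ⟨i₁, hi₁⟩ : ∃ i, w i ≠ 0 := by
    by_contra h
    push Not at h
    exact hw0 (funext h)
  have hne : (Finset.univ : Finset (Fin r)).Nonempty := ⟨i₁, Finset.mem_univ _⟩
  set δ := Finset.univ.sup (fun i => (w i).natDegree) with hδ
  have hle : ∀ i, (w i).natDegree ≤ δ := fun i =>
    Finset.le_sup (f := fun i => (w i).natDegree) (Finset.mem_univ i)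
  obtain ⟨i₀, hw₀, hdeg⟩ : ∃ i, w i ≠ 0 ∧ (w i).natDegree = δ := by
    obtain ⟨i, _, hi⟩ := Finset.exists_mem_eq_sup Finset.univ hne (fun i => (w i).natDegree)
    rcases Nat.eq_zero_or_pos δ with h0 | h0
    · refine ⟨i₁, hi₁, ?_⟩
      have := hle i₁
      omega
    · refine ⟨i, ?_, hi.symm⟩
      intro h
      rw [← hδ, h, natDegree_zero] at hi
      omega
  have h1 := congrArg (fun g : k[X] => g.coeff δ) (hw i₀)
  rw [coeff_cart hq, coeff_map, ← hdeg, coeff_natDegree, hdeg] at h1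
  have h2 : (∑ j, M i₀ j * w j).natDegree < q * δ + (q - 1) := by
    refine lt_of_le_of_lt (natDegree_sum_le_of_forall_le _ _ (n := e + δ) fun j _ => ?_) ?_
    · exact natDegree_mul_le.trans (Nat.add_le_add (hM i₀ j) (hle j))
    · have : δ ≤ q * δ := Nat.le_mul_of_pos_left δ hq
      omega
  rw [coeff_eq_zero_of_natDegree_lt h2] at h1
  have h3 : τ (w i₀).leadingCoeff = 0 := h1.symm
  rw [map_eq_zero] at h3
  exact hw₀ (leadingCoeff_eq_zero.1 h3)

end small

section van

variable {k₀ k : Type} [Field k₀] [Fintype k₀] [Field k] [Fintype k] [Algebra k₀ k]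
  {p f₀ q s r : ℕ} [hp : Fact p.Prime] [CharP k p]

/-- no zeros over the coverings for small degrees -/
theorem not_vanL (hq : q = p ^ f₀) (hf₀ : 0 < f₀) (hk₀ : Fintype.card k₀ = q)
    (hs : 0 < s) (hk : Fintype.card k = q ^ s) (h5 : 5 ≤ q) (D : k[X]) (b : Fin (r + 1) → k[X])
    (m : Fin (r + 1) → ℕ) (hm : ∀ i, 0 < m i) (hmq : ∑ i, m i < q - 1)
    (hinv : ∀ i : ℕ, i < ∑ l, m l → ((i : k₀) + 1) ≠ 0) (e : ℕ) (he : e ∣ q - 1) (d : ℕ)
    (hb : ∀ i, (b i).natDegree ≤ d) (hdeg : D.natDegree + d * ∑ i, m i < q - 1) :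
    ¬ VanL k₀ p q s e D b m := by
  intro hV
  obtain ⟨S, _, hS0, hsub⟩ := sub_of_vanL (k₀ := k₀) hq hf₀ hk₀ hs hk h5 (1 : k[X]) b m hm hmq hinv
    D.natDegree e he
  have h1 : D ∈ {D' : k[X] | D'.natDegree ≤ D.natDegree ∧ VanL k₀ p q s e (D' * 1) b m} := by
    refine ⟨le_rfl, ?_⟩
    rw [mul_one]
    exact hV
  obtain ⟨u, hu⟩ := Set.mem_iUnion.1 (hsub h1)
  obtain ⟨huS, D', ⟨hD', w, hw0, hw⟩, _⟩ := Set.mem_iUnion.1 hu
  refine no_fixed (e := D.natDegree + d * ∑ i, m i) hdeg (iterateFrobenius k p f₀)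
    (fun i j => D' * minor 1 b m i j) (fun i j => ?_) w hw0 (fun i => ?_)
  · refine natDegree_mul_le.trans (Nat.add_le_add hD' ?_)
    unfold minor
    rw [Matrix.of_apply, one_mul]
    exact natDegree_phi hb hm 0 _ _
  · have h2 := hw i
    rw [Finset.mul_sum] at h2
    rw [← h2]
    congr 1
    exact Finset.sum_congr rfl fun j _ => by ring

end van

end Pool.Agent.K4H5.PT
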